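import Pool.Agent.Lib.MP_ffb1b1_co.Final

/-!
# The scaled exponent `k^r ε*_{k,r}`

`Pool.Agent.Lib.MPffb1b1.epsStar k r` is the exponent `ε*_{k,r}` of the problem, as a supremum
over all `ε > 0` for which `Forces k r ε` holds: there is `c > 0` such that for every `n ≥ 1`
every `r`-graph on `n` vertices with at least `c n^(r-ε)` edges contains `K_r(k, .., k)`
(`Contains`: `r` pairwise disjoint classes of `k` vertices such that every set with one vertex
from each class is an edge).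

The theorem: for `k ≥ 2`, `m ≥ 1`, `2 ≤ K ≤ k m` and `1 ≤ r ≤ s`,
`k^r ε*_{k,r} ≤ (k m)^s ε*_{K,s}`.
-/

namespace Pool.Agent.Results.MP_ffb1b1_co.ScaledExponent

open Pool.Agent.Lib.MPffb1b1

theorem result : ∀ k m K r s : ℕ, 2 ≤ k → 1 ≤ m → 2 ≤ K → K ≤ k * m → 1 ≤ r → r ≤ s →
    (k : ℝ) ^ r * epsStar k r ≤ ((k * m : ℕ) : ℝ) ^ s * epsStar K s :=
  fun _ _ _ _ _ hk hm hK hKk hr hrs => lambda_general hk hm hK hKk hr hrs

end Pool.Agent.Results.MP_ffb1b1_co.ScaledExponent
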